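import Pool.Agent.H43.BZ.Stm

/-!
# Project BZ (helper43), task G2: change of variables in the folded gain term
-/

set_option autoImplicit false

open MeasureTheory Metric Set
open scoped RealInnerProductSpace ENNReal

namespace Pool.Agent.H227.BZ

open Pool.Agent.H43.BZ

private theorem val_meas {d : ℕ} : Measurable (fun p : E d × S d => (p.2 : E d)) :=
  measurable_subtype_coe.comp measurable_snd

private theorem inner_meas {d : ℕ} : Measurable (fun p : E d × S d => ⟪p.1, (p.2 : E d)⟫) :=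
  measurable_fst.inner val_meas

private theorem cosa_meas {d : ℕ} : Measurable (fun p : E d × S d => cosa p.1 (p.2 : E d)) := by
  unfold cosa
  exact inner_meas.div measurable_fst.norm

private theorem chi_meas {d : ℕ} (v : E d) : Measurable (fun y : E d => chi v y) := by
  unfold chi
  refine Measurable.ite (measurableSet_le measurable_const ?_) measurable_const measurable_const
  exact (measurable_const.add (measurable_norm.pow_const 2)).const_mul 4

private theorem Xv_meas {d : ℕ} : Measurable (fun p : E d × S d => Xv p.1 (p.2 : E d)) := by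
  unfold Xv
  exact (((measurable_fst.norm.pow_const 2).div inner_meas).smul val_meas).sub measurable_fst

private theorem post_meas {d : ℕ} (v : E d) :
    Measurable (fun p : E d × S d => post v (v - p.1) (p.2 : E d)) := by
  unfold post
  exact ((measurable_const.add (measurable_const.sub measurable_fst)).const_smul (1 / 2 : ℝ)).add
    (((measurable_const.sub (measurable_const.sub measurable_fst)).norm.div_const 2).smul val_meas)

private theorem post_meas' {d : ℕ} (v : E d) :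
    Measurable (fun p : E d × S d => post v (v - p.1) (-(p.2 : E d))) := by
  unfold post
  exact ((measurable_const.add (measurable_const.sub measurable_fst)).const_smul (1 / 2 : ℝ)).add
    (((measurable_const.sub (measurable_const.sub measurable_fst)).norm.div_const 2).smul
      val_meas.neg)

/-- the geometry of the change of variables -/
private theorem geo {d : ℕ} (v y σ : E d) (hσ : ‖σ‖ = 1) (hs : 0 < ⟪y, σ⟫) :
    ‖(2 : ℝ) • y - (‖y‖ ^ 2 / ⟪y, σ⟫) • σ‖ = ‖y‖ ^ 2 / ⟪y, σ⟫ ∧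
    post v (v - ((2 : ℝ) • y - (‖y‖ ^ 2 / ⟪y, σ⟫) • σ)) σ = v + Xv y σ ∧
    post v (v - ((2 : ℝ) • y - (‖y‖ ^ 2 / ⟪y, σ⟫) • σ)) (-σ) = v - y ∧
    cosa ((2 : ℝ) • y - (‖y‖ ^ 2 / ⟪y, σ⟫) • σ) σ = 2 * cosa y σ ^ 2 - 1 ∧ 0 < ‖y‖ := by
  have hy : y ≠ 0 := by
    rintro rfl
    rw [inner_zero_left] at hs
    exact lt_irrefl _ hs
  have hn : 0 < ‖y‖ := norm_pos_iff.2 hy
  obtain ⟨s, hs'⟩ : ∃ s, s = ⟪y, σ⟫ := ⟨_, rfl⟩
  obtain ⟨n, hn'⟩ : ∃ n, n = ‖y‖ := ⟨_, rfl⟩
  obtain ⟨t, ht⟩ : ∃ t, t = n ^ 2 / s := ⟨_, rfl⟩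
  rw [← hs'] at hs
  rw [← hn'] at hn
  have ht0 : 0 < t := by
    rw [ht]
    positivity
  have h1 : ‖(2 : ℝ) • y - t • σ‖ = t := by
    have h2 : ‖(2 : ℝ) • y - t • σ‖ ^ 2 = t ^ 2 := by
      rw [norm_sub_sq_real, norm_smul, norm_smul, inner_smul_left, inner_smul_right, hσ, ← hs',
        ← hn', Real.norm_of_nonneg ht0.le, Real.norm_of_nonneg (by norm_num : (0 : ℝ) ≤ 2)]
      have h3 : (starRingEnd ℝ) 2 = 2 := rfl
      rw [h3]
      have h4 : t * s = n ^ 2 := by
        rw [ht]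
        field_simp
      rw [h4]
      ring
    exact (pow_left_inj₀ (norm_nonneg _) ht0.le (by norm_num)).1 h2
  have h2 : ⟪(2 : ℝ) • y - t • σ, σ⟫ = 2 * s - t := by
    rw [inner_sub_left, inner_smul_left, inner_smul_left, real_inner_self_eq_norm_sq, hσ, ← hs']
    have h3 : (starRingEnd ℝ) 2 = 2 := rfl
    have h4 : (starRingEnd ℝ) t = t := rfl
    rw [h3, h4]
    ring
  rw [← hs', ← hn', ← ht]
  refine ⟨h1, ?_, ?_, ?_, hn⟩
  · unfold post Xv
    rw [sub_sub_cancel, h1, ← hs', ← hn', ← ht]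
    module
  · unfold post
    rw [sub_sub_cancel, h1]
    module
  · unfold cosa
    rw [h1, h2, ← hs', ← hn', ht]
    field_simp

/-- the real identity -/
private theorem alg {d : ℕ} (hd : 2 ≤ d) {γ n s c F₁ F₂ B A : ℝ} (hn : 0 < n) (hs : 0 < s)
    (hc : c = s / n) :
    2 ^ (d - 1) * n ^ 2 / s ^ 2 * (F₁ * F₂ * ((n ^ 2 / s) ^ γ * B) * A) =
      (F₁ * n ^ γ) * (2 ^ (d - 1) * c ^ (d - 2) * B * (c ^ (-((d : ℝ) + γ)) * (F₂ * A))) := by
  have hc0 : 0 < c := by
    rw [hc]
    positivity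
  have h1 : n ^ 2 / s = n / c := by
    rw [hc]
    field_simp
  have h2 : n ^ 2 / s ^ 2 = (c ^ 2)⁻¹ := by
    rw [hc]
    field_simp
  have h3 : c ^ (d - 2) * c ^ (-((d : ℝ) + γ)) = (c ^ 2)⁻¹ * (c ^ γ)⁻¹ := by
    rw [← Real.rpow_natCast c (d - 2), ← Real.rpow_add hc0, ← Real.rpow_neg hc0.le γ,
      ← Real.rpow_natCast c 2, ← Real.rpow_neg hc0.le, ← Real.rpow_add hc0]
    congr 1
    rw [Nat.cast_sub hd]
    push_cast
    ring
  rw [h1, mul_div_assoc, h2, Real.div_rpow hn.le hc0.le]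
  have h4 : (F₁ * n ^ γ) * (2 ^ (d - 1) * c ^ (d - 2) * B * (c ^ (-((d : ℝ) + γ)) * (F₂ * A))) =
      (F₁ * n ^ γ) * 2 ^ (d - 1) * B * F₂ * A * (c ^ (d - 2) * c ^ (-((d : ℝ) + γ))) := by ring
  rw [h4, h3]
  ring

private noncomputable def Phi {d : ℕ} (γ : ℝ) (b : ℝ → ℝ) (f : E d → ℝ) (v z : E d) (σ : S d) :
    ℝ≥0∞ :=
  ENNReal.ofReal (f (post v (v - z) (-(σ : E d))) * f (post v (v - z) σ) *
        (‖z‖ ^ γ * (b (cosa z σ) + b (-cosa z σ))) *
        ((if 0 < cosa z σ then chi v (post v (v - z) σ) else 0) +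
         (if cosa z σ < 0 then 1 - chi v (post v (v - z) (-(σ : E d))) else 0)))

private noncomputable def Rr {d : ℕ} (γ : ℝ) (b : ℝ → ℝ) (f : E d → ℝ) (v w : E d) (σ : S d) :
    ℝ≥0∞ :=
  if 0 < cosa (v - w) σ then ENNReal.ofReal (2 ^ (d - 1) * cosa (v - w) σ ^ (d - 2) *
        (b (2 * cosa (v - w) σ ^ 2 - 1) + b (1 - 2 * cosa (v - w) σ ^ 2)) *
        (cosa (v - w) σ ^ (-((d : ℝ) + γ)) * prof f v w σ)) else 0

private theorem sub_meas {d : ℕ} (v : E d) :
    Measurable (fun p : E d × S d => (v - p.1, p.2)) :=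
  (measurable_const.sub measurable_fst).prodMk measurable_snd

private theorem Phi_meas {d : ℕ} (γ : ℝ) {b : ℝ → ℝ} (hb : Measurable b) {f : E d → ℝ}
    (hf : Measurable f) (v : E d) : Measurable (fun p : E d × S d => Phi γ b f v p.1 p.2) := by
  unfold Phi
  refine ENNReal.measurable_ofReal.comp ?_
  refine Measurable.mul (Measurable.mul (Measurable.mul (hf.comp (post_meas' v))
    (hf.comp (post_meas v))) (Measurable.mul (measurable_fst.norm.pow_const γ)
      ((hb.comp cosa_meas).add (hb.comp cosa_meas.neg)))) (Measurable.add ?_ ?_)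
  · exact Measurable.ite (measurableSet_lt measurable_const cosa_meas)
      ((chi_meas v).comp (post_meas v)) measurable_const
  · exact Measurable.ite (measurableSet_lt cosa_meas measurable_const)
      (measurable_const.sub ((chi_meas v).comp (post_meas' v))) measurable_const

private theorem Rr_meas {d : ℕ} (γ : ℝ) {b : ℝ → ℝ} (hb : Measurable b) {f : E d → ℝ}
    (hf : Measurable f) (v : E d) : Measurable (fun p : E d × S d => Rr γ b f v p.1 p.2) := by
  have hcm0 := Measurable.comp cosa_meas (sub_meas v)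
  have hcm : Measurable (fun p : E d × S d => cosa (v - p.1) (p.2 : E d)) := hcm0
  have hXm0 := Measurable.comp Xv_meas (sub_meas v)
  have hXm1 : Measurable (fun p : E d × S d => Xv (v - p.1) (p.2 : E d)) := hXm0
  have hXm : Measurable (fun p : E d × S d => v + Xv (v - p.1) (p.2 : E d)) :=
    measurable_const.add hXm1
  have hprof : Measurable (fun p : E d × S d => prof f v p.1 (p.2 : E d)) := by
    unfold prof
    refine Measurable.mul (hf.comp hXm) (Measurable.add ?_ ?_)
    · exact Measurable.ite (measurableSet_lt measurable_const ((hcm.pow_const 2).const_mul 2))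
        ((chi_meas v).comp hXm) measurable_const
    · exact Measurable.ite (measurableSet_lt ((hcm.pow_const 2).const_mul 2) measurable_const)
        (measurable_const.sub ((chi_meas v).comp measurable_fst)) measurable_const
  unfold Rr
  refine Measurable.ite (measurableSet_lt measurable_const hcm)
    (ENNReal.measurable_ofReal.comp ?_) measurable_const
  refine Measurable.mul (Measurable.mul ((hcm.pow_const (d - 2)).const_mul _) ?_)
    ((hcm.pow_const _).mul hprof)
  exact (hb.comp (((hcm.pow_const 2).const_mul 2).sub_const 1)).add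
    (hb.comp (measurable_const.sub ((hcm.pow_const 2).const_mul 2)))

private theorem ptw {d : ℕ} (hd : 2 ≤ d) (γ : ℝ) (b : ℝ → ℝ) (f : E d → ℝ)
    (hf0 : ∀ y, 0 ≤ f y) (v y : E d) (σ : S d) :
    (if 0 < ⟪y, (σ : E d)⟫ then
      ENNReal.ofReal (2 ^ (d - 1) * ‖y‖ ^ 2 / ⟪y, (σ : E d)⟫ ^ 2) *
        Phi γ b f v ((2 : ℝ) • y - (‖y‖ ^ 2 / ⟪y, (σ : E d)⟫) • (σ : E d)) σ else 0) =
      ENNReal.ofReal (f (v - y) * ‖v - (v - y)‖ ^ γ) * Rr γ b f v (v - y) σ := by
  have hσ : ‖(σ : E d)‖ = 1 := by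
    have := σ.2
    rwa [mem_sphere_zero_iff_norm] at this
  unfold Rr
  rw [sub_sub_cancel]
  by_cases hs : 0 < ⟪y, (σ : E d)⟫
  · obtain ⟨g1, g2, g3, g4, g5⟩ := geo v y σ hσ hs
    have hc : 0 < cosa y (σ : E d) := by
      unfold cosa
      exact div_pos hs g5
    rw [if_pos hs, if_pos hc]
    unfold Phi prof
    rw [g1, g2, g3, g4, sub_sub_cancel, ← ENNReal.ofReal_mul (by positivity),
      ← ENNReal.ofReal_mul (mul_nonneg (hf0 _) (by positivity))]
    have i1 : (if 0 < 2 * cosa y (σ : E d) ^ 2 - 1 then chi v (v + Xv y (σ : E d)) else 0) =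
        if 1 < 2 * cosa y (σ : E d) ^ 2 then chi v (v + Xv y (σ : E d)) else 0 := by
      by_cases h : 1 < 2 * cosa y (σ : E d) ^ 2
      · rw [if_pos h, if_pos (by linarith)]
      · rw [if_neg h, if_neg (by linarith)]
    have i2 : (if 2 * cosa y (σ : E d) ^ 2 - 1 < 0 then 1 - chi v (v - y) else 0) =
        if 2 * cosa y (σ : E d) ^ 2 < 1 then 1 - chi v (v - y) else 0 := by
      by_cases h : 2 * cosa y (σ : E d) ^ 2 < 1
      · rw [if_pos h, if_pos (by linarith)]
      · rw [if_neg h, if_neg (by linarith)]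
    have i3 : -(2 * cosa y (σ : E d) ^ 2 - 1) = 1 - 2 * cosa y (σ : E d) ^ 2 := by ring
    rw [i1, i2, i3]
    exact congrArg ENNReal.ofReal (alg hd g5 hs rfl)
  · have hc : ¬ 0 < cosa y (σ : E d) := by
      unfold cosa
      intro hcon
      refine hs ?_
      by_contra h
      exact absurd hcon (not_lt.2 (div_nonpos_of_nonpos_of_nonneg (not_lt.1 h) (norm_nonneg _)))
    rw [if_neg hs, if_neg hc, mul_zero]

private theorem fiber (hcv : S_CV) {d : ℕ} (hd : 2 ≤ d) (γ : ℝ) {b : ℝ → ℝ} (hb : Measurable b)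
    {f : E d → ℝ} (hf : Measurable f) (hf0 : ∀ y, 0 ≤ f y) (v : E d) (σ : S d) :
    ∫⁻ w : E d, Phi γ b f v (v - w) σ =
      ∫⁻ w : E d, ENNReal.ofReal (f w * ‖v - w‖ ^ γ) * Rr γ b f v w σ := by
  have hσ : ‖(σ : E d)‖ = 1 := by
    have := σ.2
    rwa [mem_sphere_zero_iff_norm] at this
  have hm0 := Measurable.comp (Phi_meas γ hb hf v)
    (Measurable.prodMk measurable_id (measurable_const (a := σ)))
  have hm1 : Measurable (fun z : E d => Phi γ b f v z σ) := hm0
  have e1 : ∫⁻ w : E d, Phi γ b f v (v - w) σ = ∫⁻ z : E d, Phi γ b f v z σ :=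
    lintegral_sub_left_eq_self (fun z => Phi γ b f v z σ) v
  have e2 : ∫⁻ w : E d, ENNReal.ofReal (f w * ‖v - w‖ ^ γ) * Rr γ b f v w σ =
      ∫⁻ y : E d, ENNReal.ofReal (f (v - y) * ‖v - (v - y)‖ ^ γ) * Rr γ b f v (v - y) σ :=
    (lintegral_sub_left_eq_self (fun w => ENNReal.ofReal (f w * ‖v - w‖ ^ γ) *
      Rr γ b f v w σ) v).symm
  rw [e1, e2, hcv d hd (σ : E d) hσ _ hm1]
  exact lintegral_congr fun y => ptw hd γ b f hf0 v y σ

theorem G2 (hcv : S_CV) : S_G2 := by
  intro d hd γ hγ b hb hb0 f hf hf0 v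
  have hfin : IsFiniteMeasure (surf d) := by
    unfold surf
    infer_instance
  have hfm : Measurable (fun w : E d => ENNReal.ofReal (f w * ‖v - w‖ ^ γ)) :=
    ENNReal.measurable_ofReal.comp (hf.mul ((measurable_const.sub measurable_id).norm.pow_const γ))
  have e1 : ∀ p : E d × S d,
      ENNReal.ofReal (f (post v p.1 (-(p.2 : E d))) * f (post v p.1 p.2) *
        (‖v - p.1‖ ^ γ * (b (cosa (v - p.1) p.2) + b (-cosa (v - p.1) p.2))) *
        ((if 0 < cosa (v - p.1) p.2 then chi v (post v p.1 p.2) else 0) +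
         (if cosa (v - p.1) p.2 < 0 then 1 - chi v (post v p.1 (-(p.2 : E d))) else 0))) =
      Phi γ b f v (v - p.1) p.2 := by
    intro p
    unfold Phi
    rw [sub_sub_cancel]
  have hs0 := Measurable.comp (Rr_meas γ hb hf v) (measurable_swap (α := S d) (β := E d))
  have hs1 : Measurable (fun p : S d × E d => Rr γ b f v p.2 p.1) := hs0
  have hsn : Measurable (fun p : S d × E d => p.2) := measurable_snd
  have hs2 := Measurable.comp hfm hsn
  have hs3 : Measurable (fun p : S d × E d => ENNReal.ofReal (f p.2 * ‖v - p.2‖ ^ γ)) := hs2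
  have hm2 : Measurable (fun p : S d × E d =>
      ENNReal.ofReal (f p.2 * ‖v - p.2‖ ^ γ) * Rr γ b f v p.2 p.1) := hs3.mul hs1
  have hp0 := Measurable.comp (Phi_meas γ hb hf v) (sub_meas v)
  have hp1 : Measurable (fun p : E d × S d => Phi γ b f v (v - p.1) p.2) := hp0
  calc _ = ∫⁻ p : E d × S d, Phi γ b f v (v - p.1) p.2 ∂(volume.prod (surf d)) :=
        lintegral_congr e1
    _ = ∫⁻ σ : S d, ∫⁻ w : E d, Phi γ b f v (v - w) σ ∂volume ∂surf d :=
        lintegral_prod_symm _ hp1.aemeasurable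
    _ = ∫⁻ σ : S d, ∫⁻ w : E d, ENNReal.ofReal (f w * ‖v - w‖ ^ γ) * Rr γ b f v w σ
          ∂volume ∂surf d := lintegral_congr fun σ => fiber hcv hd γ hb hf hf0 v σ
    _ = ∫⁻ w : E d, ∫⁻ σ : S d, ENNReal.ofReal (f w * ‖v - w‖ ^ γ) * Rr γ b f v w σ
          ∂surf d ∂volume := lintegral_lintegral_swap hm2.aemeasurable
    _ = ∫⁻ w : E d, ENNReal.ofReal (f w * ‖v - w‖ ^ γ) * ∫⁻ σ : S d, Rr γ b f v w σ ∂surf d := by
        refine lintegral_congr fun w => ?_
        have hw0 := Measurable.comp (Rr_meas γ hb hf v)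
          (Measurable.prodMk (measurable_const (a := w)) (measurable_id (α := S d)))
        have hw1 : Measurable (fun σ : S d => Rr γ b f v w σ) := hw0
        exact lintegral_const_mul _ hw1

end Pool.Agent.H227.BZ
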