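import Pool.Agent.H43.BZ.Stm3
import Pool.Agent.H280.BZ.KKI

/-!
# Project BZ (helper43), task KKI1: integrability of the weight, `s = 1`, `-2 < γ < 0`
-/

set_option autoImplicit false

open MeasureTheory Metric Set

namespace Pool.Agent.H227.BZ

open Pool.Agent.H43.BZ Pool.Agent.H280.BZ

private theorem kk1_le {d : ℕ} {γ : ℝ} (hγ : γ < 0) (v w : E d) :
    kk γ 1 v w ≤ (1 + ph γ (v - w)) * (1 + ‖w‖) ^ 2 := by
  have hL0 : 0 < 1 + ‖w‖ := by linarith [norm_nonneg w]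
  have hp := ph_nonneg γ (v - w)
  have h1 : ‖v - w‖ ^ γ ≤ 1 + ph γ (v - w) := rpow_le_ph hγ _
  have h0 : 0 ≤ ‖v - w‖ ^ γ := Real.rpow_nonneg (norm_nonneg _) _
  have h3 : (1 + ‖w‖) ^ (2 * (1 : ℝ)) = (1 + ‖w‖) ^ 2 := by
    rw [mul_one, Real.rpow_two]
  have hden : 1 ≤ 1 + (‖v - w‖ / (1 + ‖w‖)) ^ 2 := by
    have := sq_nonneg (‖v - w‖ / (1 + ‖w‖))
    linarith
  unfold kk
  rw [h3]
  refine (div_le_self (by positivity) hden).trans ?_
  exact mul_le_mul_of_nonneg_right h1 (by positivity)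

theorem KKI1 : S_KKI1 := by
  intro d hd γ hγ2 hγ
  have hγ0 : -(d : ℝ) < γ := by
    have : (2 : ℝ) ≤ d := by exact_mod_cast hd
    linarith
  have hph := ph_int hd hγ0
  have hd5 : Integrable (fun w : E d => ((1 + ‖w‖) ^ (d + 5))⁻¹) := dec_int 5 (by norm_num)
  have hd3 : Integrable (fun w : E d => ((1 + ‖w‖) ^ (d + 3))⁻¹) := dec_int 3 (by norm_num)
  have hphv : ∀ v : E d, Integrable (fun w : E d => ph γ (v - w)) := fun v => hph.comp_sub_left v
  have hle1 : ∀ (w : E d) (n : ℕ), ((1 + ‖w‖) ^ n)⁻¹ ≤ 1 := fun w n =>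
    inv_le_one_of_one_le₀ (one_le_pow₀ (by linarith [norm_nonneg w]))
  have hbd : ∀ v w : E d, kk γ 1 v w * ((1 + ‖w‖) ^ (d + 7))⁻¹ ≤
      ((1 + ‖w‖) ^ (d + 5))⁻¹ + ph γ (v - w) := by
    intro v w
    have hL1 : 1 ≤ 1 + ‖w‖ := by linarith [norm_nonneg w]
    have hp := ph_nonneg γ (v - w)
    have h1 := mul_le_mul_of_nonneg_right (kk1_le hγ v w)
      (show 0 ≤ ((1 + ‖w‖) ^ (d + 7))⁻¹ by positivity)
    refine h1.trans ?_
    rw [mul_assoc, show d + 7 = d + (2 + 5) by ring, dec_mul hL1, add_mul, one_mul]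
    have h2 := mul_le_mul_of_nonneg_left (hle1 w (d + 5)) hp
    linarith
  have hkk0 : ∀ v w : E d, 0 ≤ kk γ 1 v w * ((1 + ‖w‖) ^ (d + 7))⁻¹ := by
    intro v w
    unfold kk
    have : 0 ≤ ‖v - w‖ ^ γ := Real.rpow_nonneg (norm_nonneg _) _
    positivity
  have hmeas : ∀ v : E d, Measurable (fun w : E d => ‖v - w‖ ^ γ) := fun v =>
    ((measurable_const.sub measurable_id).norm).pow_const γ
  have hmeas2 : ∀ p : ℝ, Measurable (fun w : E d => (1 + ‖w‖) ^ p) := fun p =>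
    (measurable_const.add measurable_norm).pow_const _
  have hmeas3 : ∀ n : ℕ, Measurable (fun w : E d => ((1 + ‖w‖) ^ n)⁻¹) := fun n =>
    ((measurable_const.add measurable_norm).pow_const n).inv
  have hint : ∀ v : E d, Integrable (fun w : E d => kk γ 1 v w * ((1 + ‖w‖) ^ (d + 7))⁻¹) := by
    intro v
    refine (hd5.add (hphv v)).mono' ?_ ?_
    · refine Measurable.aestronglyMeasurable ?_
      unfold kk
      refine Measurable.mul (Measurable.div ((hmeas v).mul (hmeas2 _)) ?_) (hmeas3 _)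
      exact measurable_const.add (((measurable_const.sub measurable_id).norm.div
        (measurable_const.add measurable_norm)).pow_const 2)
    · refine Filter.Eventually.of_forall fun w => ?_
      rw [Real.norm_eq_abs, abs_of_nonneg (hkk0 v w)]
      exact hbd v w
  refine ⟨(∫ w : E d, ((1 + ‖w‖) ^ (d + 5))⁻¹) + ∫ z : E d, ph γ z, fun v => ⟨hint v, ?_, ?_⟩⟩
  · have h1 : ∫ w : E d, ph γ (v - w) = ∫ z : E d, ph γ z :=
      integral_sub_left_eq_self (fun z : E d => ph γ z) volume v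
    rw [← h1, ← integral_add hd5 (hphv v)]
    exact integral_mono (hint v) (hd5.add (hphv v)) (fun w => hbd v w)
  · refine (hd3.add (hphv v)).mono' ?_ ?_
    · exact (((hmeas v).mul (hmeas2 _)).mul (hmeas3 _)).aestronglyMeasurable
    · refine Filter.Eventually.of_forall fun w => ?_
      have hL1 : 1 ≤ 1 + ‖w‖ := by linarith [norm_nonneg w]
      have hp := ph_nonneg γ (v - w)
      have hr0 : 0 ≤ ‖v - w‖ ^ γ := Real.rpow_nonneg (norm_nonneg _) _
      have h6 := rpow_le_ph hγ (v - w)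
      have h5 : (1 + ‖w‖) ^ 2 * ((1 + ‖w‖) ^ (d + 5))⁻¹ = ((1 + ‖w‖) ^ (d + 3))⁻¹ := by
        rw [show d + 5 = d + (2 + 3) by ring, dec_mul hL1]
      rw [Real.norm_eq_abs, abs_of_nonneg (by positivity), Real.rpow_two, mul_assoc, h5]
      have h7 := mul_le_mul_of_nonneg_right h6 (show 0 ≤ ((1 + ‖w‖) ^ (d + 3))⁻¹ by positivity)
      have h8 := mul_le_mul_of_nonneg_left (hle1 w (d + 3)) hp
      refine h7.trans ?_
      show (1 + ph γ (v - w)) * ((1 + ‖w‖) ^ (d + 3))⁻¹ ≤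
        ((1 + ‖w‖) ^ (d + 3))⁻¹ + ph γ (v - w)
      linarith

end Pool.Agent.H227.BZ
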